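import Pool.Agent.K1H62.FI.Stm

set_option autoImplicit false

/-! Project FI: the two cases (`S_NRM`, `S_LEN`, `S_REG` imply `S_TWO`). -/

namespace Pool.Agent.K1H25.FI

open Pool.Agent.K1H62.FI

theorem nrm_restrict {G : SimpleGraph ℕ} {v : ℕ → ℕ} {L : ℕ → ℕ → ℕ} {p : ℕ → ℕ → ℕ → ℕ}
    (h : Nrm G v L p) {φ : ℕ → ℕ} (hφ : StrictMono φ) :
    Nrm G (fun i => v (φ i)) (fun i j => L (φ i) (φ j)) (fun i j a => p (φ i) (φ j) a) where
  inj := h.inj.comp hφ.injective
  pos i j hij := h.pos _ _ (hφ hij)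
  st i j hij := h.st _ _ (hφ hij)
  en i j hij := h.en _ _ (hφ hij)
  pinj i j a b hij := h.pinj _ _ a b (hφ hij)
  ind i j a b hij := h.ind _ _ a b (hφ hij)
  br i j a k hij := h.br _ _ a _ (hφ hij)
  dis i j a i' j' a' hij hij' h1 h2 h3 h4 he := by
    obtain ⟨e1, e2⟩ := h.dis _ _ a _ _ a' (hφ hij) (hφ hij') h1 h2 h3 h4 he
    exact ⟨hφ.injective e1, hφ.injective e2⟩

theorem nrm_fam {G : SimpleGraph ℕ} {v : ℕ → ℕ} {L : ℕ → ℕ → ℕ} {p : ℕ → ℕ → ℕ → ℕ}
    (h : Nrm G v L p) {m : ℕ} (hm : ∀ i j, i < j → m < L i j) :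
    Fam m v (fun i j a => p i j (a + 1)) where
  inj := h.inj
  br i j a k hij ha := h.br i j (a + 1) k hij (Nat.succ_pos a)
    (lt_of_le_of_lt (Nat.succ_le_of_lt ha) (hm i j hij))
  dis i j a i' j' a' hij hij' ha ha' he := by
    have l1 : a + 1 < L i j := lt_of_le_of_lt (Nat.succ_le_of_lt ha) (hm i j hij)
    have l2 : a' + 1 < L i' j' := lt_of_le_of_lt (Nat.succ_le_of_lt ha') (hm i' j' hij')
    obtain ⟨e1, e2⟩ := h.dis i j (a + 1) i' j' (a' + 1) hij hij' (Nat.succ_pos a) l1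
      (Nat.succ_pos a') l2 he
    subst e1 e2
    have e3 := h.pinj i j (a + 1) (a' + 1) hij l1.le l2.le he
    exact ⟨rfl, rfl, by omega⟩

theorem t_TWO (h1 : S_NRM) (h2 : S_LEN) (h3 : S_REG) : S_TWO := by
  intro r m G hr hS
  obtain ⟨v, L, p, hN⟩ := h1 G hS
  obtain ⟨φ, hφ, hc⟩ := h2 L (m + 1)
  have hN1 := nrm_restrict hN hφ
  rcases hc with hc | ⟨s', hs', hc⟩
  · left
    have hF : Fam m (fun i => v (φ i)) (fun i j a => p (φ i) (φ j) (a + 1)) :=
      nrm_fam hN1 fun i j hij => by have := hc i j hij; omega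
    obtain ⟨ψ, hψ, hC⟩ := h3 r m G _ _ hr hF
    have hN2 := nrm_restrict hN1 hψ
    have hl : ∀ i j, i < j → m + 1 < L (φ (ψ i)) (φ (ψ j)) := fun i j hij => hc _ _ (hψ hij)
    refine ⟨fun i => v (φ (ψ i)), fun i j a => p (φ (ψ i)) (φ (ψ j)) (a + 1), ?_, hC, ?_, ?_, ?_⟩
    · exact nrm_fam hN2 fun i j hij => by have := hl i j hij; omega
    · intro i j a hij ha
      have h0 := hN2.st i j hij
      have hi := hN2.ind i j 0 (a + 1) hij (Nat.zero_le _) (by have := hl i j hij; omega)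
      beta_reduce at h0 hi ⊢
      rw [h0] at hi
      rw [hi]
      omega
    · intro i j a hij ha
      have h0 := hN2.en i j hij
      have hll := hl i j hij
      have hi := hN2.ind i j (L (φ (ψ i)) (φ (ψ j))) (a + 1) hij le_rfl (by omega)
      beta_reduce at h0 hi ⊢
      rw [h0] at hi
      rw [hi]
      omega
    · intro i j a b hij ha hb
      have hll := hl i j hij
      have hi := hN2.ind i j (a + 1) (b + 1) hij (by omega) (by omega)
      beta_reduce at hi ⊢
      rw [hi]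
      omega
  · right
    obtain ⟨s, rfl⟩ : ∃ s, s' = s + 1 := by
      have h01 := hN1.pos 0 1 Nat.zero_lt_one
      have h02 := hc 0 1 Nat.zero_lt_one
      beta_reduce at h01
      exact ⟨s' - 1, by omega⟩
    have hF : Fam s (fun i => v (φ i)) (fun i j a => p (φ i) (φ j) (a + 1)) :=
      nrm_fam hN1 fun i j hij => by have := hc i j hij; omega
    obtain ⟨ψ, hψ, hC⟩ := h3 r s G _ _ hr hF
    have hN2 := nrm_restrict hN1 hψ
    have hl : ∀ i j, i < j → L (φ (ψ i)) (φ (ψ j)) = s + 1 := fun i j hij => hc _ _ (hψ hij)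
    refine ⟨s, ?_, fun i => v (φ (ψ i)), fun i j a => p (φ (ψ i)) (φ (ψ j)) (a + 1), ?_, hC,
      ?_, ?_, ?_⟩
    · rcases Nat.eq_zero_or_pos s with rfl | hs
      · exfalso
        have hll := hl 0 1 Nat.zero_lt_one
        have hst := hN2.st 0 1 Nat.zero_lt_one
        have hen := hN2.en 0 1 Nat.zero_lt_one
        have hi := hN2.ind 0 1 0 1 Nat.zero_lt_one (Nat.zero_le _) (by have := hl 0 1 Nat.zero_lt_one; omega)
        beta_reduce at hst hen hi
        rw [hll] at hen
        rw [hst, hen] at hi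
        exact hC.vv 0 1 (hi.2 (Or.inl (by norm_num)))
      · exact hs
    · exact nrm_fam hN2 fun i j hij => by have := hl i j hij; omega
    · intro i j a hij ha
      have h0 := hN2.st i j hij
      have hi := hN2.ind i j 0 (a + 1) hij (Nat.zero_le _) (by have := hl i j hij; omega)
      beta_reduce at h0 hi ⊢
      rw [h0] at hi
      rw [hi]
      omega
    · intro i j a hij ha
      have h0 := hN2.en i j hij
      have hll := hl i j hij
      have hi := hN2.ind i j (L (φ (ψ i)) (φ (ψ j))) (a + 1) hij le_rfl (by omega)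
      beta_reduce at h0 hi ⊢
      rw [h0] at hi
      rw [hi]
      omega
    · intro i j a b hij ha hb
      have hll := hl i j hij
      have hi := hN2.ind i j (a + 1) (b + 1) hij (by omega) (by omega)
      beta_reduce at hi ⊢
      rw [hi]
      omega

end Pool.Agent.K1H25.FI
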